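import Pool.Agent.Y17.N.Defs3
import Pool.Agent.Z759.BSD.GENbB

/-!
`S_GENb3`: the sum over all factorizations for a fixed `b`, norms `3 pr D1`, `3 pr D2`,
all split primes.
-/

set_option autoImplicit false

namespace Pool.Agent.Y98.ZN

open Finset
open Pool.Agent.Z700 (pr chi3 fac hh od)
open Pool.Agent.Z927 (pm_prod pm_pow ee S3 s_unit)
open Pool.Agent.Z759.BSD

theorem t_GENb3 : Pool.Agent.Y17.N.S_GENb3 := by
  classical
  intro P hSp hne b hbo D hD hDD h2
  have hP : ∀ p ∈ P, SN p := fun p hp => Or.inl (hSp p hp)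
  have hP8 : ∀ p ∈ P, p % 8 = 1 ∨ p % 8 = 5 := fun p hp => Or.inl (hSp p hp).2.1
  have hinr : ∀ D1 ⊆ P, inr D1 = ∅ := by
    intro D1 h1
    rw [inr, Finset.filter_eq_empty_iff]
    intro p hp h
    have := (hSp p (h1 hp)).2.1
    omega
  have hspl : spl P = P := by
    rw [spl, Finset.filter_eq_self]
    intro p hp
    exact (hSp p hp).2.1
  have hadm : adm P = P.powerset := by
    rw [adm, Finset.filter_eq_self]
    intro D1 h1
    rw [hinr D1 (Finset.mem_powerset.1 h1)]
    simp
  have hex : ex P = P.card := by rw [ex, if_pos (hinr P (Finset.Subset.refl _))]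
  have h3u : ∀ p ∈ P, jacobiSym (p : ℤ) 3 = 1 ∨ jacobiSym (p : ℤ) 3 = -1 := fun p hp => by
    rw [← sn_three (hP p hp)]; exact sn_three_unit (hP p hp)
  by_cases hb3 : (3 : ℤ) ∣ b
  · have hfalse : ¬ (¬ (3 : ℤ) ∣ b ∧ ∃ y : ℕ, od D = y ^ 2 ∧ ∀ p ∈ P, jacobiSym y p = 1) :=
      fun h => h.1 hb3
    -- the two basic sums
    obtain ⟨N1, hN1, hN1'⟩ := abs_main (ι := S3 D) (fun i => D.factorization i)
      (fun i => jacobiSym (-3) i) (fun i p => ee P i p) (fun _ => 1) P hP8 (fun i => s_unit i.2)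
      (fun i p hp => ee_unit hP i.2 hp) (fun p _ => Or.inl rfl)
    obtain ⟨N3, hN3, hN3'⟩ := abs_main (ι := S3 D) (fun i => D.factorization i)
      (fun i => jacobiSym (-3) i) (fun i p => ee P i p) (fun p => jacobiSym (p : ℤ) 3) P hP8
      (fun i => s_unit i.2) (fun i p hp => ee_unit hP i.2 hp) h3u
    rw [hadm, hex] at hN1 hN3
    have hprod : ∀ D1 ∈ P.powerset, ∏ i : S3 D, ∑ j ∈ range (D.factorization i + 1),
          (jacobiSym (-3) i * ∏ p ∈ D1, ee P i p) ^ j = ∏ l ∈ S3 D, fac (3 * pr D1) D l := by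
      intro D1 hD1
      rw [← Finset.prod_coe_sort (S3 D) (fun l => fac (3 * pr D1) D l)]
      refine Finset.prod_congr rfl fun i _ => ?_
      exact (fac_eq hP hD hDD i.2 (Finset.mem_powerset.1 hD1)).symm
    have hM1 : ∑ D1 ∈ P.powerset, ∏ l ∈ S3 D, fac (3 * pr D1) D l = 2 ^ P.card * N1 := by
      rw [← hN1]
      refine Finset.sum_congr rfl fun D1 hD1 => ?_
      rw [Finset.prod_const_one, one_mul, hprod D1 hD1]
    have hM3 : ∑ D1 ∈ P.powerset, (∏ p ∈ D1, jacobiSym (p : ℤ) 3) *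
        ∏ l ∈ S3 D, fac (3 * pr D1) D l = 2 ^ P.card * N3 := by
      rw [← hN3]
      refine Finset.sum_congr rfl fun D1 hD1 => ?_
      rw [hprod D1 hD1]
    have hee : ∀ p, (∏ i : S3 D, (ee P i p) ^ (D.factorization i)) =
        ∏ l ∈ S3 D, (ee P l p) ^ (D.factorization l) := fun p =>
      Finset.prod_coe_sort (S3 D) (fun l => (ee P l p) ^ (D.factorization l))
    have hD3 : 3 ∣ D := by
      obtain ⟨c, rfl⟩ := hb3
      have : (3 : ℤ) ∣ D := ⟨3 * pr P - 3 * c ^ 2, by rw [hDD]; ring⟩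
      exact_mod_cast this
    have hmem : 3 ∈ (D.primeFactors.erase 2).erase 7 := by
      rw [Finset.mem_erase, Finset.mem_erase, Nat.mem_primeFactors]
      exact ⟨by norm_num, by norm_num, Nat.prime_three, hD3, hD.ne'⟩
    obtain ⟨c, hc, hfac⟩ := fac_three hD
    have hterm : ∀ D1 ∈ P.powerset,
        ∏ l ∈ (D.primeFactors.erase 2).erase 7, fac (3 * pr D1) D l =
          (1 + (if Even (D.factorization 3) then c else (∏ p ∈ D1, jacobiSym (p : ℤ) 3) * c)) *
          ∏ l ∈ S3 D, fac (3 * pr D1) D l := by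
      intro D1 hD1
      rw [← Finset.mul_prod_erase _ _ hmem, hfac D1]
      rfl
    rw [Finset.sum_congr rfl hterm]
    by_cases hv : Even (D.factorization 3)
    · -- even power of three
      simp only [if_pos hv]
      have e1 : ∑ D1 ∈ P.powerset, (1 + c) *
          ∏ l ∈ S3 D, fac (3 * pr D1) D l = (1 + c) * (2 ^ P.card * N1) := by
        rw [← hM1, Finset.mul_sum]
      refine ⟨(1 + c) * N1, by rw [e1]; ring, fun _ => ⟨fun h => ?_, fun h => absurd h hfalse⟩⟩
      exfalso
      have hev : Even ((1 + c) * N1) := by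
        rcases hc with h' | h' <;> rw [h']
        · exact ⟨N1, by ring⟩
        · exact ⟨0, by ring⟩
      exact (Int.not_even_iff_odd.2 h) hev
    · -- odd power of three
      simp only [if_neg hv]
      have e1 : ∑ D1 ∈ P.powerset, (1 + (∏ p ∈ D1, jacobiSym (p : ℤ) 3) * c) *
          ∏ l ∈ S3 D, fac (3 * pr D1) D l = 2 ^ P.card * N1 + c * (2 ^ P.card * N3) := by
        rw [← hM3, ← hM1, Finset.mul_sum, ← Finset.sum_add_distrib]
        refine Finset.sum_congr rfl fun D1 hD1 => ?_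
        ring
      refine ⟨N1 + c * N3, by rw [e1]; ring,
        fun h7 => ⟨fun h => ?_, fun h => absurd h hfalse⟩⟩
      exfalso
      have hvo : Odd (D.factorization 3) := Nat.not_even_iff_odd.1 hv
      have hcard : (TC (ι := S3 D) (fun i => D.factorization i) (fun i p => ee P i p)
          (fun _ => 1) P).card = (TC (ι := S3 D) (fun i => D.factorization i)
          (fun i p => ee P i p) (fun p => jacobiSym (p : ℤ) 3) P).card := by
        refine card_flip (fun i p hp => ee_unit hP i.2 hp) fun p hp => ?_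
        rw [hee p, ee_total' hP hD hDD h2 h7 hp, one_mul]
        obtain ⟨i, hi⟩ := hvo
        rw [hi, pow_succ, pow_mul, sq_unit (h3u p hp), one_pow, one_mul]
      have hpar : Odd N3 ↔ Odd N1 := by rw [hN3', hN1', hcard]
      have hev : Even (N1 + c * N3) := by
        have hcN : Odd (c * N3) ↔ Odd N3 := by
          rcases hc with h' | h' <;> rw [h']
          · rw [one_mul]
          · rw [neg_one_mul, odd_neg]
        rw [Int.even_add, ← Int.not_odd_iff_even, ← Int.not_odd_iff_even, hcN, hpar]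
      exact (Int.not_even_iff_odd.2 h) hev
  · obtain ⟨n, hn, hn'⟩ := main_GENb P ⟨hP, by rw [hinr P (Finset.Subset.refl _)]; simp⟩ hne b hbo
      D hD hDD h2
    rw [hadm, hex] at hn
    have hbm : ¬ b % 3 = 0 := fun h => hb3 (Int.dvd_of_emod_eq_zero h)
    have hw : ∀ D1 : Finset ℕ, wt (pr D1) (pr (P \ D1)) b = -chi3 b := fun D1 => by
      rw [wt, if_neg hbm]
    have hcb : chi3 b = 1 ∨ chi3 b = -1 := by
      rw [chi3]
      have : b % 3 = 1 ∨ b % 3 = 2 := by omega
      rcases this with h | h <;> rw [h] <;> norm_num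
    simp only [hw] at hn
    rw [← Finset.mul_sum] at hn
    refine ⟨-chi3 b * n, ?_, fun h7 => ?_⟩
    · rcases hcb with h' | h' <;> rw [h'] at hn ⊢ <;> linarith
    · have hodd : Odd (-chi3 b * n) ↔ Odd n := by
        rcases hcb with h' | h' <;> rw [h']
        · rw [neg_one_mul, odd_neg]
        · rw [neg_neg, one_mul]
      rw [hodd, hn' h7, hspl, hinr P (Finset.Subset.refl _)]
      constructor
      · rintro ⟨h1, y, hy, hy1, -⟩
        exact ⟨h1, y, hy, hy1⟩
      · rintro ⟨h1, y, hy, hy1⟩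
        exact ⟨h1, y, hy, hy1, fun q hq => absurd hq (Finset.notMem_empty q)⟩

end Pool.Agent.Y98.ZN
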